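import Pool.Agent.N848.AW.Stm
import Pool.Agent.R426.QK.BOX

/-!
# Project AW (helper848), job AW-BOX: the count in a box

A port of the file `Pool/Agent/R426/QK/BOX.lean` (project QK) to the class `D ≡ 5` modulo `8`.
-/

set_option autoImplicit false
set_option linter.unusedVariables false

open scoped Classical

namespace Pool.Agent.N615.AW.BOX

open Finset
open Pool.Agent.Y698
open Pool.Agent.R426.QK
open Pool.Agent.R426.QK.BOX (z2_self z2_swap ez0 ez0_coe cs_sw HB_sub)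
open Pool.Agent.N848.AW (Cst dt Lp GA GB MM NdL LAJE gg hh cA G2 Nd3 Nd5 S_BOX5)

/-- the label of a prime with respect to the small primes -/
noncomputable def lb (S₀ : Finset RR) (x : RR) : (S₀ → ZMod 2) × ZMod 2 × ZMod 2 × ZMod 2 :=
  (fun u => cs x u, tt x, gg x, hh x)

/-- the good labels -/
def LN {ι : Type} [Fintype ι] (S₀ : Finset RR)
    (β : ι → (S₀ → ZMod 2) × ZMod 2 × ZMod 2 × ZMod 2) : Prop :=
  (∑ u : S₀, gg u + ∑ i, (β i).2.2.1 = 1) ∧ (∑ u : S₀, hh u + ∑ i, (β i).2.2.2 = 1) ∧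
    NdL (fun i => (β i).2.1) (fun i => (β i).2.2.1) (fun i => (β i).2.2.2)
      (fun (u : S₀) i => (β i).1 u)

theorem fcc {α : Type} {s : Finset α} {p q : α → Prop} {i1 : DecidablePred p}
    {i2 : DecidablePred q} (h : ∀ x ∈ s, (p x ↔ q x)) :
    (@Finset.filter α p i1 s).card = (@Finset.filter α q i2 s).card := by
  congr 1
  ext x
  rw [Finset.mem_filter, Finset.mem_filter]
  exact and_congr_right fun hx => h x hx

section tr
variable {V W : Type} [Fintype W] {S : Finset V} {φ : W → V} {A : V → V → ZMod 2}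
  {M : W → W → ZMod 2}

theorem img_eq (hS : ∀ x, x ∈ S ↔ ∃ w, φ w = x) : S = univ.image φ := by
  ext x
  rw [hS, Finset.mem_image]
  constructor
  · rintro ⟨w, hw⟩
    exact ⟨w, Finset.mem_univ _, hw⟩
  · rintro ⟨w, -, hw⟩
    exact ⟨w, hw⟩

theorem Lp_tr (hφ : Function.Injective φ) (hS : ∀ x, x ∈ S ↔ ∃ w, φ w = x)
    (hM : ∀ v w, v ≠ w → M v w = A (φ v) (φ w)) (x : V → ZMod 2) (v : W) :
    Lp S A x (φ v) = Lp univ M (fun w => x (φ w)) v := by
  unfold Lp
  rw [img_eq hS, Finset.sum_image (fun a _ b _ h => hφ h)]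
  refine Finset.sum_congr rfl fun w _ => ?_
  by_cases h : v = w
  · rw [h, z2_self, mul_zero, mul_zero]
  · rw [hM v w h]

theorem dt_tr (hφ : Function.Injective φ) (hS : ∀ x, x ∈ S ↔ ∃ w, φ w = x) (f x : V → ZMod 2) :
    dt S f x = dt univ (fun w => f (φ w)) (fun w => x (φ w)) := by
  unfold dt
  rw [img_eq hS, Finset.sum_image (fun a _ b _ h => hφ h)]

theorem Cst_tr (hS : ∀ x, x ∈ S ↔ ∃ w, φ w = x) (x : V → ZMod 2) :
    Cst S x ↔ Cst univ (fun w => x (φ w)) := by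
  unfold Cst
  constructor
  · rintro ⟨c, hc⟩
    exact ⟨c, fun w _ => hc _ ((hS _).2 ⟨w, rfl⟩)⟩
  · rintro ⟨c, hc⟩
    refine ⟨c, fun v hv => ?_⟩
    rw [hS] at hv
    obtain ⟨w, rfl⟩ := hv
    exact hc w (Finset.mem_univ _)

omit [Fintype W] in
theorem lift_ex (hφ : Function.Injective φ) (y : W → ZMod 2) :
    ∃ x : V → ZMod 2, (fun w => x (φ w)) = y := by
  refine ⟨fun v => if h : ∃ w, φ w = v then y h.choose else 0, ?_⟩
  funext w
  have hex : ∃ w', φ w' = φ w := ⟨w, rfl⟩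
  show (if h : ∃ w', φ w' = φ w then y h.choose else 0) = y w
  rw [dif_pos hex]
  exact congrArg y (hφ hex.choose_spec)

theorem GA_tr (hφ : Function.Injective φ) (hS : ∀ x, x ∈ S ↔ ∃ w, φ w = x)
    (hM : ∀ v w, v ≠ w → M v w = A (φ v) (φ w)) (t g : V → ZMod 2) :
    GA S A t g ↔ GA univ M (fun w => t (φ w)) (fun w => g (φ w)) := by
  constructor
  · intro h y hy
    obtain ⟨x, rfl⟩ := lift_ex hφ y
    rw [← Cst_tr hS]
    refine h x fun p hp => ?_
    rw [hS] at hp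
    obtain ⟨w, rfl⟩ := hp
    rw [Lp_tr hφ hS hM, dt_tr hφ hS]
    exact hy w (Finset.mem_univ _)
  · intro h x hx
    rw [Cst_tr hS]
    refine h _ fun w _ => ?_
    have h1 := hx (φ w) ((hS _).2 ⟨w, rfl⟩)
    rw [Lp_tr hφ hS hM, dt_tr hφ hS] at h1
    exact h1

theorem GB_tr (hφ : Function.Injective φ) (hS : ∀ x, x ∈ S ↔ ∃ w, φ w = x)
    (hM : ∀ v w, v ≠ w → M v w = A (φ v) (φ w)) (t g : V → ZMod 2) :
    GB S A t g ↔ GB univ M (fun w => t (φ w)) (fun w => g (φ w)) := by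
  constructor
  · intro h y hy
    obtain ⟨x, rfl⟩ := lift_ex hφ y
    rw [← Cst_tr hS]
    refine h x fun p hp => ?_
    rw [hS] at hp
    obtain ⟨w, rfl⟩ := hp
    rw [Lp_tr hφ hS hM, dt_tr hφ hS]
    exact hy w (Finset.mem_univ _)
  · intro h x hx
    rw [Cst_tr hS]
    refine h _ fun w _ => ?_
    have h1 := hx (φ w) ((hS _).2 ⟨w, rfl⟩)
    rw [Lp_tr hφ hS hM, dt_tr hφ hS] at h1
    exact h1

end tr

section one
variable {ι : Type} [Fintype ι] [LinearOrder ι] {S₀ : Finset RR} {p : ι → RR}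

omit [LinearOrder ι] in
theorem nd_iff (hp : Function.Injective p) :
    Nd5 S₀ (univ.image p) ↔ LN S₀ (fun i => lb S₀ (p i)) := by
  unfold Nd5 LN
  have hs : ∀ f : RR → ZMod 2, ∑ u ∈ S₀, f u + ∑ π ∈ univ.image p, f π =
      ∑ u : S₀, f u + ∑ i, f (p i) := by
    intro f
    rw [Finset.sum_image (fun a _ b _ h => hp h), ← Finset.sum_coe_sort S₀]
  rw [hs gg, hs hh]
  refine and_congr Iff.rfl (and_congr Iff.rfl ?_)
  unfold Nd3 NdL
  have e1 : ∀ (w : RR → ZMod 2) (e₁ e₂ e₃ : ZMod 2) (i : ι),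
      ∑ u ∈ S₀, w u * cs (p i) u + e₁ * tt (p i) + e₂ * gg (p i) + e₃ * hh (p i) =
      ∑ u : S₀, w u * (lb S₀ (p i)).1 u + e₁ * (lb S₀ (p i)).2.1 + e₂ * (lb S₀ (p i)).2.2.1 +
        e₃ * (lb S₀ (p i)).2.2.2 := by
    intro w e₁ e₂ e₃ i
    rw [← Finset.sum_coe_sort S₀]
    rfl
  constructor
  · intro h w e₁ e₂ e₃ hw
    have hw' : (∃ u ∈ S₀, ez0 w u ≠ 0) ∨ e₁ ≠ 0 ∨ e₂ ≠ 0 ∨ e₃ ≠ 0 := by
      rcases hw with ⟨u, hu⟩ | hw
      · exact Or.inl ⟨u, u.2, by rw [ez0_coe]; exact hu⟩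
      · exact Or.inr hw
    obtain ⟨x, hx, hx2⟩ := h (ez0 w) e₁ e₂ e₃ hw'
    rw [Finset.mem_image] at hx
    obtain ⟨i, -, rfl⟩ := hx
    rw [e1] at hx2
    simp only [ez0_coe] at hx2
    exact ⟨i, hx2⟩
  · intro h w e₁ e₂ e₃ hw
    have hw' : (∃ u : S₀, (fun u : S₀ => w u) u ≠ 0) ∨ e₁ ≠ 0 ∨ e₂ ≠ 0 ∨ e₃ ≠ 0 := by
      rcases hw with ⟨u, hu0, hu⟩ | hw
      · exact Or.inl ⟨⟨u, hu0⟩, hu⟩
      · exact Or.inr hw
    obtain ⟨i, hi⟩ := h (fun u => w u) e₁ e₂ e₃ hw'
    refine ⟨p i, Finset.mem_image_of_mem _ (Finset.mem_univ _), ?_⟩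
    rw [e1]
    exact hi

theorem ext_val (hrec : RecP) (hp : Function.Injective p) (hpr : ∀ i, Pq (p i)) (k l : ι)
    (hlk : l ≠ k) :
    Pool.Agent.R426.QK.ext (fun i => tt (p i))
      (fun e : prs ι => cs (p e.1.1) (p e.1.2)) k l = cs (p l) (p k) := by
  unfold Pool.Agent.R426.QK.ext
  by_cases h : (l, k) ∈ prs ι
  · rw [dif_pos h]
  · rw [dif_neg h]
    have h2 : (k, l) ∈ prs ι := by
      unfold prs at h ⊢
      rw [Finset.mem_filter] at h ⊢
      refine ⟨Finset.mem_univ _, ?_⟩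
      rcases lt_trichotomy k l with h1 | h1 | h1
      · exact h1
      · exact absurd h1.symm hlk
      · exact absurd ⟨Finset.mem_univ _, h1⟩ h
    rw [dif_pos h2]
    have h3 := hrec (p k) (p l) (hpr k) (hpr l) (fun h => hlk (hp h).symm)
    exact (z2_swap h3).symm

theorem gd_iff (hrec : RecP) (hp : Function.Injective p) (hpr : ∀ i, Pq (p i))
    (hS₀ : ∀ u ∈ S₀, Pq u) (hd : ∀ i, p i ∉ S₀) :
    G2 (S₀ ∪ univ.image p) ↔
      GA (univ : Finset (S₀ ⊕ ι)) (MM (fun u : S₀ => tt u) (fun i => tt (p i))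
        (fun u v : S₀ => cs v u) (fun (u : S₀) l => cs (p l) u)
        (Pool.Agent.R426.QK.ext (fun i => tt (p i)) fun e : prs ι => cs (p e.1.1) (p e.1.2)))
        (Sum.elim (fun u : S₀ => tt u) (fun i => tt (p i)))
        (Sum.elim (fun u : S₀ => gg u) (fun i => gg (p i))) ∧
      GB (univ : Finset (S₀ ⊕ ι)) (MM (fun u : S₀ => tt u) (fun i => tt (p i))
        (fun u v : S₀ => cs v u) (fun (u : S₀) l => cs (p l) u)
        (Pool.Agent.R426.QK.ext (fun i => tt (p i)) fun e : prs ι => cs (p e.1.1) (p e.1.2)))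
        (Sum.elim (fun u : S₀ => tt u) (fun i => tt (p i)))
        (Sum.elim (fun u : S₀ => hh u) (fun i => hh (p i))) := by
  obtain ⟨φ, hφ⟩ : ∃ φ : S₀ ⊕ ι → RR, φ = Sum.elim (fun u : S₀ => (u : RR)) p := ⟨_, rfl⟩
  have hinj : Function.Injective φ := by
    rw [hφ]
    rintro (u | i) (v | j) h
    · simp only [Sum.elim_inl] at h
      rw [Subtype.ext h]
    · simp only [Sum.elim_inl, Sum.elim_inr] at h
      exact absurd (h ▸ u.2) (hd j)
    · simp only [Sum.elim_inl, Sum.elim_inr] at h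
      exact absurd (h ▸ v.2) (hd i)
    · simp only [Sum.elim_inr] at h
      rw [hp h]
  have hS : ∀ x, x ∈ S₀ ∪ univ.image p ↔ ∃ w, φ w = x := by
    intro x
    rw [hφ]
    simp only [Finset.mem_union, Finset.mem_image, Finset.mem_univ, true_and, Sum.exists,
      Sum.elim_inl, Sum.elim_inr]
    refine or_congr ?_ Iff.rfl
    constructor
    · intro hx
      exact ⟨⟨x, hx⟩, rfl⟩
    · rintro ⟨u, rfl⟩
      exact u.2
  have hM : ∀ v w : S₀ ⊕ ι, v ≠ w → MM (fun u : S₀ => tt u) (fun i => tt (p i))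
      (fun u v : S₀ => cs v u) (fun (u : S₀) l => cs (p l) u)
      (Pool.Agent.R426.QK.ext (fun i => tt (p i)) fun e : prs ι => cs (p e.1.1) (p e.1.2)) v w =
      cA (φ v) (φ w) := by
    rw [hφ]
    rintro (u | k) (v | l) hne
    · rfl
    · rfl
    · show cs (p k) v + tt (v : RR) * tt (p k) = cs (v : RR) (p k)
      exact (cs_sw hrec hpr hS₀ hd k v).symm
    · exact ext_val hrec hp hpr k l (fun h => hne (by rw [h]))
  have e1 : ∀ f : RR → ZMod 2, (fun w => f (φ w)) =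
      Sum.elim (fun u : S₀ => f u) (fun i => f (p i)) := by
    intro f
    rw [hφ]
    funext w
    rcases w with u | i
    · rfl
    · rfl
  unfold G2
  rw [GA_tr hinj hS hM, GB_tr hinj hS hM, e1, e1, e1]

end one

/-- **The count in a box.** -/
theorem t_BOX5 : S_BOX5 := by
  intro hrec hEQ ε V hLA ι _ _ C X κ S₀ hκ hCX hHB hS₀ hC hdis hhyp
  obtain ⟨R, hR⟩ : ∃ R : ℝ, R = 2 ^ (prs ι).card * (κ * ∏ j, (X j : ℝ)) := ⟨_, rfl⟩
  have hR0 : 0 ≤ R := by
    rw [hR]
    exact mul_nonneg (by positivity)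
      (mul_nonneg hκ (Finset.prod_nonneg fun j _ => by positivity))
  -- facts on tuples
  have hinj : ∀ p ∈ Fintype.piFinset C, Function.Injective p := by
    intro p hp i j hij
    rw [Fintype.mem_piFinset] at hp
    by_contra hne
    have h1 := Finset.disjoint_left.1 (hdis i j hne) (hp i)
    rw [hij] at h1
    exact h1 (hp j)
  have hd : ∀ p ∈ Fintype.piFinset C, ∀ i, p i ∉ S₀ := by
    intro p hp i
    rw [Fintype.mem_piFinset] at hp
    exact (hC i _ (hp i)).2
  have hpr : ∀ p ∈ Fintype.piFinset C, ∀ i, Pq (p i) := by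
    intro p hp i
    rw [Fintype.mem_piFinset] at hp
    exact (hC i _ (hp i)).1
  -- the part with given labels
  have h1 : ∀ β : ι → (S₀ → ZMod 2) × ZMod 2 × ZMod 2 × ZMod 2, LN S₀ β →
      |(((Fintype.piFinset C).filter fun p => (fun i => lb S₀ (p i)) = β ∧
          G2 (S₀ ∪ univ.image p)).card : ℝ) -
        c2 / 2 * (((Fintype.piFinset C).filter fun p => (fun i => lb S₀ (p i)) = β).card : ℝ)| ≤
      ε * (((Fintype.piFinset C).filter fun p => (fun i => lb S₀ (p i)) = β).card : ℝ) + R := by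
    intro β hβ
    by_cases hex : ∃ p ∈ Fintype.piFinset C, (fun i => lb S₀ (p i)) = β
    swap
    · have e1 : ((Fintype.piFinset C).filter fun p => (fun i => lb S₀ (p i)) = β) = ∅ := by
        rw [Finset.filter_eq_empty_iff]
        intro p hp h
        exact hex ⟨p, hp, h⟩
      have e2 : ((Fintype.piFinset C).filter fun p => (fun i => lb S₀ (p i)) = β ∧
          G2 (S₀ ∪ univ.image p)) = ∅ := by
        rw [Finset.filter_eq_empty_iff]
        rintro p hp ⟨h, -⟩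
        exact hex ⟨p, hp, h⟩
      rw [e1, e2, Finset.card_empty, Nat.cast_zero, mul_zero, mul_zero, sub_zero, abs_zero,
        zero_add]
      exact hR0
    obtain ⟨q₀, hq₀, hq₀β⟩ := hex
    obtain ⟨hc1, hc2⟩ := hhyp q₀ hq₀
    obtain ⟨C', hC'⟩ : ∃ C' : ι → Finset RR, C' = fun i => (C i).filter fun q => lb S₀ q = β i :=
      ⟨_, rfl⟩
    have hpi : (Fintype.piFinset C).filter (fun p => (fun i => lb S₀ (p i)) = β) =
        Fintype.piFinset C' := by
      ext p
      simp only [Finset.mem_filter, Fintype.mem_piFinset, hC']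
      constructor
      · rintro ⟨h2, h3⟩ i
        exact ⟨h2 i, congrFun h3 i⟩
      · intro h2
        exact ⟨fun i => (h2 i).1, funext fun i => (h2 i).2⟩
    have htt : ∀ i, (β i).2.1 = tt (q₀ i) := by
      intro i
      rw [← hq₀β]
      rfl
    have h2 := hLA S₀ ι (fun u => tt u) (fun u => gg u) (fun u => hh u) (fun i => (β i).2.1)
      (fun i => (β i).2.2.1) (fun i => (β i).2.2.2)
      (fun u v => cs v u) (fun u l => (β l).1 u)
      (by
        rw [Fintype.card_coe]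
        simp only [htt]
        exact hc1)
      (by
        simp only [htt]
        rw [Finset.sum_coe_sort S₀ (fun u => tt u)]
        exact hc2)
      hβ.1 hβ.2.1
      (fun u v huv => by
        have h3 := hrec (u : RR) v (hS₀ u u.2) (hS₀ v v.2) (fun h => huv (Subtype.ext h))
        rw [← h3, add_comm])
      hβ.2.2
    obtain ⟨Q, hQ⟩ : ∃ Q : (prs ι → ZMod 2) → Prop, Q = fun α =>
        GA (univ : Finset (S₀ ⊕ ι)) (MM (fun u : S₀ => tt u) (fun i => (β i).2.1)
          (fun u v : S₀ => cs v u) (fun (u : S₀) l => (β l).1 u)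
          (Pool.Agent.R426.QK.ext (fun i => (β i).2.1) α))
          (Sum.elim (fun u : S₀ => tt u) (fun i => (β i).2.1))
          (Sum.elim (fun u : S₀ => gg u) (fun i => (β i).2.2.1)) ∧
        GB (univ : Finset (S₀ ⊕ ι)) (MM (fun u : S₀ => tt u) (fun i => (β i).2.1)
          (fun u v : S₀ => cs v u) (fun (u : S₀) l => (β l).1 u)
          (Pool.Agent.R426.QK.ext (fun i => (β i).2.1) α))
          (Sum.elim (fun u : S₀ => tt u) (fun i => (β i).2.1))
          (Sum.elim (fun u : S₀ => hh u) (fun i => (β i).2.2.2)) := ⟨_, rfl⟩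
    have h3 := hEQ ι C' X κ hκ
      (fun i => (Finset.card_le_card (by rw [hC']; exact Finset.filter_subset _ _)).trans (hCX i))
      (by rw [hC']; exact HB_sub hHB fun i q => lb S₀ q = β i) Q
    have h4 : ((Fintype.piFinset C).filter fun p => (fun i => lb S₀ (p i)) = β ∧
        G2 (S₀ ∪ univ.image p)) = ((Fintype.piFinset C').filter fun p =>
          Q fun e => cs (p e.1.1) (p e.1.2)) := by
      rw [← hpi, Finset.filter_filter]
      refine Finset.filter_congr fun p hp => ?_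
      refine and_congr_right fun hl => ?_
      rw [gd_iff hrec (hinj p hp) (hpr p hp) hS₀ (hd p hp)]
      subst hl
      rw [hQ]
      exact Iff.rfl
    have h5 : (((Fintype.piFinset C').card : ℕ) : ℝ) = ∏ j, ((C' j).card : ℝ) := by
      rw [Fintype.card_piFinset]
      push_cast
      rfl
    rw [h4, hpi, h5]
    rw [← hR] at h3
    obtain ⟨n, hn⟩ : ∃ n : ℝ, n = (((Fintype.piFinset C').filter fun p =>
          Q fun e => cs (p e.1.1) (p e.1.2)).card : ℝ) := ⟨_, rfl⟩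
    obtain ⟨q, hq⟩ : ∃ q : ℝ, q = ((univ.filter Q).card : ℝ) / 2 ^ (prs ι).card := ⟨_, rfl⟩
    obtain ⟨P, hP⟩ : ∃ P : ℝ, P = ∏ j, ((C' j).card : ℝ) := ⟨_, rfl⟩
    have hP0 : 0 ≤ P := by
      rw [hP]
      exact Finset.prod_nonneg fun j _ => by positivity
    have h2' : |q - c2 / 2| ≤ ε := by
      refine le_trans (le_of_eq ?_) h2
      rw [hq, hQ]
      exact congrArg (fun n : ℕ => |(n : ℝ) / 2 ^ (prs ι).card - c2 / 2|) (fcc fun _ _ => Iff.rfl)
    rw [← hn, ← hq, ← hP] at h3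
    rw [← hn, ← hP]
    have h6 : |n - c2 / 2 * P| ≤ |n - q * P| + |q - c2 / 2| * P := by
      have h7 : n - c2 / 2 * P = (n - q * P) + (q - c2 / 2) * P := by ring
      have h8 : |(q - c2 / 2) * P| = |q - c2 / 2| * P := by rw [abs_mul, abs_of_nonneg hP0]
      rw [h7, ← h8]
      exact abs_add_le _ _
    have h7 : |q - c2 / 2| * P ≤ ε * P := mul_le_mul_of_nonneg_right h2' hP0
    linarith
  -- sum over the labels
  obtain ⟨LL, hLL⟩ : ∃ LL : Finset (ι → (S₀ → ZMod 2) × ZMod 2 × ZMod 2 × ZMod 2),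
      LL = univ.filter (fun β => LN S₀ β) := ⟨_, rfl⟩
  have hfib : ∀ T : (ι → RR) → Prop,
      (((Fintype.piFinset C).filter fun p => Nd5 S₀ (univ.image p) ∧ T p).card : ℝ) =
      ∑ β ∈ LL, (((Fintype.piFinset C).filter fun p =>
        (fun i => lb S₀ (p i)) = β ∧ T p).card : ℝ) := by
    intro T
    rw [Finset.card_eq_sum_card_fiberwise (f := fun (p : ι → RR) (i : ι) => lb S₀ (p i))
      (t := LL) (by
        intro p hp
        rw [Finset.mem_coe, Finset.mem_filter] at hp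
        rw [Finset.mem_coe, hLL, Finset.mem_filter]
        exact ⟨Finset.mem_univ _, (nd_iff (hinj p hp.1)).1 hp.2.1⟩)]
    push_cast
    refine Finset.sum_congr rfl fun β hβ => ?_
    rw [hLL, Finset.mem_filter] at hβ
    congr 2
    ext p
    simp only [Finset.mem_filter]
    constructor
    · rintro ⟨⟨h3, h4, h4'⟩, h5⟩
      exact ⟨h3, h5, h4'⟩
    · rintro ⟨h3, h4, h5⟩
      refine ⟨⟨h3, ?_, h5⟩, h4⟩
      rw [nd_iff (hinj p h3), h4]
      exact hβ.2
  have hf1 := hfib fun p => G2 (S₀ ∪ univ.image p)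
  have hf2 := hfib fun _ => True
  simp only [and_true] at hf2
  rw [hf1, hf2, Finset.mul_sum, ← Finset.sum_sub_distrib]
  refine (Finset.abs_sum_le_sum_abs _ _).trans ?_
  refine (Finset.sum_le_sum fun β hβ => h1 β (by
    rw [hLL] at hβ
    exact (Finset.mem_filter.1 hβ).2)).trans ?_
  rw [Finset.sum_add_distrib, ← Finset.mul_sum, Finset.sum_const, nsmul_eq_mul]
  have h5 : ((LL.card : ℕ) : ℝ) ≤ 2 ^ ((S₀.card + 3) * Fintype.card ι) := by
    have h6 : LL.card ≤ Fintype.card (ι → (S₀ → ZMod 2) × ZMod 2 × ZMod 2 × ZMod 2) :=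
      Finset.card_le_univ _
    rw [Fintype.card_fun, Fintype.card_prod, Fintype.card_prod, Fintype.card_prod,
      Fintype.card_fun, ZMod.card, Fintype.card_coe] at h6
    have h7 : 2 ^ S₀.card * (2 * (2 * 2)) = 2 ^ (S₀.card + 3) := by ring
    rw [h7, ← pow_mul] at h6
    exact_mod_cast h6
  have h6 := mul_le_mul_of_nonneg_right h5 hR0
  rw [pow_add, mul_assoc, ← hR]
  linarith

end Pool.Agent.N615.AW.BOX
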